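import Mathlib
import Pool.Agent.N361.DC.Def

/-! # DC/CORE: minimum degree part of a hypergraph -/

set_option autoImplicit false

namespace Pool.Agent.N999.DC

open Finset Pool.Agent.N361.DC

theorem core : S_CORE := by
  classical
  intro N K c hN hK hc
  have hNK : K.filter (fun A => A ⊆ N) = K := filter_true_of_mem fun A hA => (hK A hA).1
  obtain ⟨M, hM, hmin⟩ := exists_min_image
    (N.powerset.filter fun M => M.Nonempty ∧ c * M.card ≤ (K.filter (fun A => A ⊆ M)).card) card
    ⟨N, mem_filter.2 ⟨mem_powerset_self N, hN, by rw [hNK]; exact hc⟩⟩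
  obtain ⟨hMN, hMne, hMc⟩ := mem_filter.1 hM
  rw [mem_powerset] at hMN
  refine ⟨M, hMN, hMne, fun x hx => ?_⟩
  by_contra hlt
  rw [not_le] at hlt
  have hsplit : (K.filter (fun A => A ⊆ M)).card =
      (K.filter (fun A => A ⊆ M.erase x)).card + (K.filter (fun A => A ⊆ M ∧ x ∈ A)).card := by
    rw [← card_union_of_disjoint]
    · congr 1
      ext A
      simp only [mem_filter, mem_union]
      constructor
      · rintro ⟨hA, hAM⟩
        by_cases hxA : x ∈ A
        · exact Or.inr ⟨hA, hAM, hxA⟩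
        · exact Or.inl ⟨hA, fun y hy => mem_erase.2 ⟨fun h => hxA (h ▸ hy), hAM hy⟩⟩
      · rintro (⟨hA, hAM⟩ | ⟨hA, hAM, _⟩)
        · exact ⟨hA, hAM.trans (erase_subset _ _)⟩
        · exact ⟨hA, hAM⟩
    · rw [disjoint_left]
      intro A hA hA'
      have h1 := (mem_filter.1 hA).2 (mem_filter.1 hA').2.2
      exact (notMem_erase x M) h1
  have hcard : ((M.erase x).card : ℚ) = (M.card : ℚ) - 1 := by
    rw [card_erase_of_mem hx, Nat.cast_sub (card_pos.2 hMne), Nat.cast_one]
  have hs : ((K.filter (fun A => A ⊆ M)).card : ℚ) =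
      (K.filter (fun A => A ⊆ M.erase x)).card + (K.filter (fun A => A ⊆ M ∧ x ∈ A)).card := by
    rw [hsplit, Nat.cast_add]
  have hgt : c * (M.erase x).card < (K.filter (fun A => A ⊆ M.erase x)).card := by
    rw [hcard]
    rw [hs] at hMc
    linarith
  rcases (M.erase x).eq_empty_or_nonempty with h | h
  · have h0 : K.filter (fun A => A ⊆ M.erase x) = ∅ := by
      rw [h]
      refine filter_false_of_mem fun A hA hAe => ?_
      exact (hK A hA).2.ne_empty (subset_empty.1 hAe)
    rw [h0, h] at hgt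
    simp at hgt
  · have h1 := hmin (M.erase x) (mem_filter.2 ⟨mem_powerset.2 ((erase_subset _ _).trans hMN), h,
      hgt.le⟩)
    exact absurd h1 (not_le.2 (card_erase_lt_of_mem hx))

end Pool.Agent.N999.DC
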